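import Pool.Agent.K3h22.EX.Stm

/-!
# Lower bound for exponential polynomials with one dominating term (brick DOM of helper22)
-/

set_option autoImplicit false

namespace Pool.Agent.K3h76.EX

open Pool.Agent.K3h22.EX
open MvPolynomial Filter Topology Metric Set

variable {s : ℕ}

lemma near (hT : S_TOP) (q : MvPolynomial (Fin s) ℂ) (ζ : Fin s → ℂ) {η : ℝ} (hη : 0 < η) :
    ∀ᶠ x in (atTop : Filter ℝ) ×ˢ 𝓝 ζ,
      ‖eval (sc x.1 x.2) q - (x.1 : ℂ) ^ q.totalDegree * eval ζ (top q)‖ ≤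
      η * x.1 ^ q.totalDegree := by
  obtain ⟨C, hC, h⟩ := hT s q (‖ζ‖ + 1)
  have h1 : ∀ᶠ v in 𝓝 ζ, ‖v‖ ≤ ‖ζ‖ + 1 := by
    filter_upwards [ball_mem_nhds ζ one_pos] with v hv
    have h0 : ‖v‖ ≤ ‖ζ‖ + ‖v - ζ‖ := norm_le_norm_add_norm_sub' v ζ
    rw [mem_ball, dist_eq_norm] at hv
    linarith
  have h2 : ∀ᶠ v in 𝓝 ζ, ‖eval v (top q) - eval ζ (top q)‖ < η / 2 := by
    have hc : Continuous fun v : Fin s → ℂ => eval v (top q) := MvPolynomial.continuous_eval _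
    have h0 := (hc.tendsto ζ) (ball_mem_nhds _ (half_pos hη))
    filter_upwards [h0] with v hv
    have hv' : eval v (top q) ∈ ball (eval ζ (top q)) (η / 2) := hv
    rwa [mem_ball, dist_eq_norm] at hv'
  filter_upwards [(eventually_ge_atTop (max 1 (2 * C / η))).prod_inl (𝓝 ζ), h1.prod_inr atTop,
    h2.prod_inr atTop] with x hx1 hx2 hx3
  have hR1 : 1 ≤ x.1 := (le_max_left _ _).trans hx1
  have hR2 : 2 * C / η ≤ x.1 := (le_max_right _ _).trans hx1
  have h3 := h x.1 hR1 x.2 hx2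
  have hp : 0 < x.1 ^ q.totalDegree := by positivity
  have h4 : C * x.1 ^ q.totalDegree / x.1 ≤ η / 2 * x.1 ^ q.totalDegree := by
    rw [div_le_iff₀ (by linarith)]
    have h0 : C ≤ η / 2 * x.1 := by
      rw [div_le_iff₀ hη] at hR2
      linarith
    have := mul_le_mul_of_nonneg_right h0 hp.le
    linarith
  have h5 : ‖(x.1 : ℂ) ^ q.totalDegree * eval x.2 (top q) -
      (x.1 : ℂ) ^ q.totalDegree * eval ζ (top q)‖ ≤ η / 2 * x.1 ^ q.totalDegree := by
    rw [← mul_sub, norm_mul, norm_pow, Complex.norm_real, Real.norm_of_nonneg (by linarith),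
      mul_comm]
    exact mul_le_mul_of_nonneg_right hx3.le hp.le
  have h6 := norm_add_le
    (eval (sc x.1 x.2) q - (x.1 : ℂ) ^ q.totalDegree * eval x.2 (top q))
    ((x.1 : ℂ) ^ q.totalDegree * eval x.2 (top q) - (x.1 : ℂ) ^ q.totalDegree * eval ζ (top q))
  rw [sub_add_sub_cancel] at h6
  linarith

lemma upper (hT : S_TOP) (q : MvPolynomial (Fin s) ℂ) (ζ : Fin s → ℂ) :
    ∀ᶠ x in (atTop : Filter ℝ) ×ˢ 𝓝 ζ,
      ‖eval (sc x.1 x.2) q‖ ≤ (‖eval ζ (top q)‖ + 1) * x.1 ^ q.totalDegree := by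
  filter_upwards [near hT q ζ one_pos, (eventually_ge_atTop (1 : ℝ)).prod_inl (𝓝 ζ)] with x h hx
  have h1 : ‖eval (sc x.1 x.2) q‖ ≤ ‖eval (sc x.1 x.2) q -
      (x.1 : ℂ) ^ q.totalDegree * eval ζ (top q)‖ + ‖(x.1 : ℂ) ^ q.totalDegree * eval ζ (top q)‖ := by
    have := norm_add_le (eval (sc x.1 x.2) q - (x.1 : ℂ) ^ q.totalDegree * eval ζ (top q))
      ((x.1 : ℂ) ^ q.totalDegree * eval ζ (top q))
    rwa [sub_add_cancel] at this
  rw [norm_mul, norm_pow, Complex.norm_real, Real.norm_of_nonneg (by linarith)] at h1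
  linarith

lemma lower (hT : S_TOP) (q : MvPolynomial (Fin s) ℂ) (ζ : Fin s → ℂ)
    (hq : eval ζ (top q) ≠ 0) :
    ∀ᶠ x in (atTop : Filter ℝ) ×ˢ 𝓝 ζ, ‖eval ζ (top q)‖ / 2 ≤ ‖eval (sc x.1 x.2) q‖ := by
  have hn : 0 < ‖eval ζ (top q)‖ := norm_pos_iff.2 hq
  filter_upwards [near hT q ζ (half_pos hn), (eventually_ge_atTop (1 : ℝ)).prod_inl (𝓝 ζ)]
    with x h hx
  have h1 : ‖(x.1 : ℂ) ^ q.totalDegree * eval ζ (top q)‖ ≤ ‖eval (sc x.1 x.2) q‖ +
      ‖eval (sc x.1 x.2) q - (x.1 : ℂ) ^ q.totalDegree * eval ζ (top q)‖ := by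
    have := norm_sub_le (eval (sc x.1 x.2) q)
      (eval (sc x.1 x.2) q - (x.1 : ℂ) ^ q.totalDegree * eval ζ (top q))
    rwa [sub_sub_cancel] at this
  rw [norm_mul, norm_pow, Complex.norm_real, Real.norm_of_nonneg (by linarith)] at h1
  have h2 : 1 ≤ x.1 ^ q.totalDegree := one_le_pow₀ hx
  nlinarith

lemma real_part (hT : S_TOP) (q : MvPolynomial (Fin s) ℂ) (ζ : Fin s → ℂ)
    (hq : (eval ζ (top q)).re ≠ 0) :
    ∀ᶠ x in (atTop : Filter ℝ) ×ˢ 𝓝 ζ, |(eval (sc x.1 x.2) q).re -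
      x.1 ^ q.totalDegree * (eval ζ (top q)).re| ≤
        |(eval ζ (top q)).re| / 2 * x.1 ^ q.totalDegree := by
  filter_upwards [near hT q ζ (half_pos (abs_pos.2 hq))] with x h
  refine le_trans ?_ h
  refine le_trans (le_of_eq ?_) (Complex.abs_re_le_norm _)
  congr 1
  rw [Complex.sub_re, ← Complex.ofReal_pow, Complex.re_ofReal_mul]

lemma val_eq {β : Type} [Fintype β] (p : β → MvPolynomial (Fin s) ℂ) (c : β → ℂ)
    (z : Fin s → ℂ) (G : MvPolynomial β (MvPolynomial (Fin s) ℂ)) :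
    val p c z G = ∑ m ∈ G.support,
      eval z (coeff m G) * Complex.exp (eval z (expo p m) + ∑ b, (m b : ℂ) * c b) := by
  rw [val, coe_eval₂Hom, eval₂_eq']
  refine Finset.sum_congr rfl fun m _ => ?_
  congr 1
  rw [expo, map_sum, ← Finset.sum_add_distrib, Complex.exp_sum]
  refine Finset.prod_congr rfl fun b _ => ?_
  rw [map_mul, map_natCast, ← mul_add, Complex.exp_nat_mul]

/-- a term which is exponentially small relative to the dominating term -/
lemma small (hT : S_TOP) {β : Type} [Fintype β] (p : β → MvPolynomial (Fin s) ℂ) (c : β → ℂ)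
    (ζ : Fin s → ℂ) (g g' : MvPolynomial (Fin s) ℂ) (m m' : β →₀ ℕ) (hg' : eval ζ (top g') ≠ 0)
    (hd : 0 < (expo p m - expo p m').totalDegree)
    (ha : (eval ζ (top (expo p m - expo p m'))).re < 0) {η : ℝ} (hη : 0 < η) :
    ∀ᶠ x in (atTop : Filter ℝ) ×ˢ 𝓝 ζ,
      ‖eval (sc x.1 x.2) g * Complex.exp (eval (sc x.1 x.2) (expo p m) + ∑ b, (m b : ℂ) * c b)‖ ≤
      η * ‖eval (sc x.1 x.2) g' *
        Complex.exp (eval (sc x.1 x.2) (expo p m') + ∑ b, (m' b : ℂ) * c b)‖ := by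
  set q := expo p m - expo p m' with hq
  set a := (eval ζ (top q)).re with haa
  set κ : ℝ := (∑ b, (m b : ℂ) * c b).re - (∑ b, (m' b : ℂ) * c b).re with hκ
  set K : ℝ := ‖eval ζ (top g)‖ + 1 with hK
  have hK0 : 0 < K := by positivity
  set L : ℝ := ‖eval ζ (top g')‖ / 2 with hL
  have hL0 : 0 < L := half_pos (norm_pos_iff.2 hg')
  have hb : 0 < -a / 2 := by linarith
  have hlim : Tendsto (fun R : ℝ => K * Real.exp κ *
      (R ^ (g.totalDegree : ℝ) * Real.exp (-(-a / 2) * R))) atTop (𝓝 (K * Real.exp κ * 0)) :=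
    (tendsto_rpow_mul_exp_neg_mul_atTop_nhds_zero (g.totalDegree : ℝ) (-a / 2) hb).const_mul _
  rw [mul_zero] at hlim
  have hev : ∀ᶠ R : ℝ in atTop, K * Real.exp κ *
      (R ^ (g.totalDegree : ℝ) * Real.exp (-(-a / 2) * R)) < η * L :=
    hlim.eventually (gt_mem_nhds (mul_pos hη hL0))
  filter_upwards [upper hT g ζ, lower hT g' ζ hg', real_part hT q ζ ha.ne,
    hev.prod_inl (𝓝 ζ), (eventually_ge_atTop (1 : ℝ)).prod_inl (𝓝 ζ)] with x h1 h2 h3 h4 h5
  set z := sc x.1 x.2 with hz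
  rw [← haa, abs_le] at h3
  rw [Real.rpow_natCast] at h4
  have hR : x.1 ≤ x.1 ^ q.totalDegree := le_self_pow₀ h5 (by omega)
  have h6 : (eval z q).re ≤ a / 2 * x.1 := by
    have h7 := h3.2
    rw [abs_of_neg ha] at h7
    nlinarith
  rw [hq, map_sub, Complex.sub_re] at h6
  rw [norm_mul, norm_mul, Complex.norm_exp, Complex.norm_exp, Complex.add_re, Complex.add_re]
  set A := (eval z (expo p m')).re + (∑ b, (m' b : ℂ) * c b).re with hA
  have h8 : (eval z (expo p m)).re + (∑ b, (m b : ℂ) * c b).re ≤ A + κ + -(-a / 2) * x.1 := by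
    rw [hA, hκ]
    linarith
  have h9 : Real.exp ((eval z (expo p m)).re + (∑ b, (m b : ℂ) * c b).re) ≤
      Real.exp A * Real.exp κ * Real.exp (-(-a / 2) * x.1) := by
    rw [← Real.exp_add, ← Real.exp_add]
    exact Real.exp_le_exp.2 h8
  have hxp : 0 < x.1 ^ g.totalDegree := by positivity
  calc ‖eval z g‖ * Real.exp ((eval z (expo p m)).re + (∑ b, (m b : ℂ) * c b).re)
      ≤ (K * x.1 ^ g.totalDegree) * (Real.exp A * Real.exp κ * Real.exp (-(-a / 2) * x.1)) :=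
        mul_le_mul h1 h9 (Real.exp_pos _).le (by positivity)
    _ = K * Real.exp κ * (x.1 ^ g.totalDegree * Real.exp (-(-a / 2) * x.1)) * Real.exp A := by ring
    _ ≤ η * L * Real.exp A := mul_le_mul_of_nonneg_right h4.le (Real.exp_pos _).le
    _ ≤ η * (‖eval z g'‖ * Real.exp A) := by
        rw [mul_assoc]
        exact mul_le_mul_of_nonneg_left (mul_le_mul_of_nonneg_right h2 (Real.exp_pos _).le) hη.le

/-- the size of the dominating term -/
lemma dominating (hT : S_TOP) {β : Type} [Fintype β] (p : β → MvPolynomial (Fin s) ℂ)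
    (c : β → ℂ) (ζ : Fin s → ℂ) (g : MvPolynomial (Fin s) ℂ) (m : β →₀ ℕ)
    (hg : eval ζ (top g) ≠ 0) (δ : ℕ) (hδ : ∀ b, m b ≠ 0 → (p b).totalDegree ≤ δ) :
    ∃ C : ℝ, 0 ≤ C ∧ ∀ᶠ x in (atTop : Filter ℝ) ×ˢ 𝓝 ζ, Real.exp (-(C * x.1 ^ δ)) ≤
      ‖eval (sc x.1 x.2) g * Complex.exp (eval (sc x.1 x.2) (expo p m) + ∑ b, (m b : ℂ) * c b)‖ := by
  set L : ℝ := ‖eval ζ (top g)‖ / 2 with hL
  have hL0 : 0 < L := half_pos (norm_pos_iff.2 hg)
  set κ : ℝ := (∑ b, (m b : ℂ) * c b).re with hκ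
  set D : ℝ := ∑ b, (m b : ℝ) * (‖eval ζ (top (p b))‖ + 1) with hD
  have hD0 : 0 ≤ D := Finset.sum_nonneg fun b _ => by positivity
  refine ⟨|Real.log L| + |κ| + D, add_nonneg (add_nonneg (abs_nonneg _) (abs_nonneg _)) hD0, ?_⟩
  have hall : ∀ᶠ x in (atTop : Filter ℝ) ×ˢ 𝓝 ζ, ∀ b ∈ (Finset.univ : Finset β),
      ‖eval (sc x.1 x.2) (p b)‖ ≤ (‖eval ζ (top (p b))‖ + 1) * x.1 ^ (p b).totalDegree :=
    (Filter.eventually_all_finset _).2 fun b _ => upper hT (p b) ζ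
  filter_upwards [lower hT g ζ hg, hall, (eventually_ge_atTop (1 : ℝ)).prod_inl (𝓝 ζ)]
    with x h1 h2 h3
  set z := sc x.1 x.2 with hz
  have h4 : |(eval z (expo p m)).re| ≤ D * x.1 ^ δ := by
    refine (Complex.abs_re_le_norm _).trans ?_
    rw [expo, map_sum, hD, Finset.sum_mul]
    refine (norm_sum_le _ _).trans (Finset.sum_le_sum fun b hb => ?_)
    rw [map_mul, map_natCast, norm_mul, Complex.norm_natCast, mul_assoc]
    by_cases hb0 : m b = 0
    · rw [hb0]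
      simp
    · refine mul_le_mul_of_nonneg_left ((h2 b hb).trans ?_) (Nat.cast_nonneg _)
      exact mul_le_mul_of_nonneg_left (pow_le_pow_right₀ h3 (hδ b hb0)) (by positivity)
  have hR : 1 ≤ x.1 ^ δ := one_le_pow₀ h3
  rw [norm_mul, Complex.norm_exp, Complex.add_re, ← hκ]
  have h5 : Real.exp (-((|Real.log L| + |κ| + D) * x.1 ^ δ)) ≤
      Real.exp (Real.log L) * Real.exp ((eval z (expo p m)).re + κ) := by
    rw [← Real.exp_add]
    refine Real.exp_le_exp.2 ?_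
    have e1 := neg_abs_le (Real.log L)
    have e2 := neg_abs_le κ
    have e3 := neg_abs_le (eval z (expo p m)).re
    have e4 : |Real.log L| ≤ |Real.log L| * x.1 ^ δ := le_mul_of_one_le_right (abs_nonneg _) hR
    have e5 : |κ| ≤ |κ| * x.1 ^ δ := le_mul_of_one_le_right (abs_nonneg _) hR
    nlinarith
  rw [Real.exp_log hL0] at h5
  exact h5.trans (mul_le_mul_of_nonneg_right h1 (Real.exp_pos _).le)

theorem t_DOM : S_TOP → S_DOM := by
  classical
  intro hT s β _ p c ζ G hG hcoeff hpair δ hδ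
  have hne : G.support.Nonempty := by
    rw [MvPolynomial.support_nonempty]
    exact hG
  -- the dominating monomial
  have hall : ∀ᶠ x in (atTop : Filter ℝ) ×ˢ 𝓝 ζ, ∀ m ∈ G.support, ∀ m' ∈ G.support, m ≠ m' →
      |(eval (sc x.1 x.2) (expo p m - expo p m')).re -
      x.1 ^ (expo p m - expo p m').totalDegree * (eval ζ (top (expo p m - expo p m'))).re| ≤
        |(eval ζ (top (expo p m - expo p m'))).re| / 2 *
          x.1 ^ (expo p m - expo p m').totalDegree := by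
    refine (Filter.eventually_all_finset _).2 fun m hm =>
      (Filter.eventually_all_finset _).2 fun m' hm' => ?_
    by_cases h : m = m'
    · exact Filter.Eventually.of_forall fun x hx => absurd h hx
    · filter_upwards [real_part hT _ ζ (hpair m hm m' hm' h).2] with x hx _
      exact hx
  obtain ⟨x₀, hx₀, hx₁⟩ := (hall.and ((eventually_ge_atTop (1 : ℝ)).prod_inl (𝓝 ζ))).exists
  obtain ⟨m₀, hm₀, hmax⟩ := Finset.exists_max_image G.support
    (fun m => (eval (sc x₀.1 x₀.2) (expo p m)).re) hne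
  have hneg : ∀ m ∈ G.support, m ≠ m₀ → (eval ζ (top (expo p m - expo p m₀))).re < 0 := by
    intro m hm hmm
    obtain ⟨-, h2⟩ := hpair m hm m₀ hm₀ hmm
    by_contra h3
    have h4 : 0 < (eval ζ (top (expo p m - expo p m₀))).re :=
      lt_of_le_of_ne (not_lt.1 h3) (Ne.symm h2)
    have h5 := (abs_le.1 (hx₀ m hm m₀ hm₀ hmm)).1
    rw [abs_of_pos h4, map_sub, Complex.sub_re] at h5
    have h6 := hmax m hm
    have h7 : 0 < x₀.1 ^ (expo p m - expo p m₀).totalDegree := by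
      have : (0 : ℝ) < x₀.1 := by linarith
      positivity
    nlinarith
  -- the other terms
  obtain ⟨C, hC0, hC⟩ := dominating hT p c ζ (coeff m₀ G) m₀ (hcoeff m₀ hm₀) δ (hδ m₀ hm₀)
  have hcard : (0 : ℝ) < G.support.card := by exact_mod_cast Finset.card_pos.2 hne
  have hsm : ∀ᶠ x in (atTop : Filter ℝ) ×ˢ 𝓝 ζ, ∀ m ∈ G.support.erase m₀,
      ‖eval (sc x.1 x.2) (coeff m G) *
        Complex.exp (eval (sc x.1 x.2) (expo p m) + ∑ b, (m b : ℂ) * c b)‖ ≤
      1 / (2 * G.support.card) * ‖eval (sc x.1 x.2) (coeff m₀ G) *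
        Complex.exp (eval (sc x.1 x.2) (expo p m₀) + ∑ b, (m₀ b : ℂ) * c b)‖ := by
    refine (Filter.eventually_all_finset _).2 fun m hm => ?_
    obtain ⟨hmm, hm⟩ := Finset.mem_erase.1 hm
    exact small hT p c ζ _ _ m m₀ (hcoeff m₀ hm₀) (hpair m hm m₀ hm₀ hmm).1 (hneg m hm hmm)
      (by positivity)
  have hfin : ∀ᶠ x in (atTop : Filter ℝ) ×ˢ 𝓝 ζ,
      Real.exp (-((C + 1) * (x.1 ^ δ + Real.log x.1))) ≤ ‖val p c (sc x.1 x.2) G‖ := by
    filter_upwards [hC, hsm, (eventually_ge_atTop (1 : ℝ)).prod_inl (𝓝 ζ)] with x h1 h2 h3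
    set T : (β →₀ ℕ) → ℂ := fun m => eval (sc x.1 x.2) (coeff m G) *
        Complex.exp (eval (sc x.1 x.2) (expo p m) + ∑ b, (m b : ℂ) * c b) with hTd
    have e1 : val p c (sc x.1 x.2) G = T m₀ + ∑ m ∈ G.support.erase m₀, T m := by
      rw [val_eq, ← Finset.add_sum_erase _ _ hm₀]
    have e2 : ‖∑ m ∈ G.support.erase m₀, T m‖ ≤ 1 / 2 * ‖T m₀‖ := by
      refine (norm_sum_le _ _).trans ((Finset.sum_le_sum h2).trans ?_)
      rw [Finset.sum_const, nsmul_eq_mul, ← mul_assoc]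
      refine mul_le_mul_of_nonneg_right ?_ (norm_nonneg _)
      have e3 : ((G.support.erase m₀).card : ℝ) ≤ G.support.card := by
        exact_mod_cast Finset.card_le_card (Finset.erase_subset _ _)
      rw [mul_one_div, div_le_div_iff₀ (by positivity) (by norm_num)]
      linarith
    have e4 : ‖T m₀‖ ≤ ‖val p c (sc x.1 x.2) G‖ + ‖∑ m ∈ G.support.erase m₀, T m‖ := by
      have := norm_sub_le (val p c (sc x.1 x.2) G) (∑ m ∈ G.support.erase m₀, T m)
      rwa [e1, add_sub_cancel_right, ← e1] at this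
    have e5 : Real.exp (-(C * x.1 ^ δ)) ≤ ‖T m₀‖ := h1
    have e6 : Real.exp (-((C + 1) * (x.1 ^ δ + Real.log x.1))) ≤
        1 / 2 * Real.exp (-(C * x.1 ^ δ)) := by
      have hlog : 0 ≤ Real.log x.1 := Real.log_nonneg h3
      have hR : 1 ≤ x.1 ^ δ := one_le_pow₀ h3
      have h7 : Real.exp (-1) ≤ 1 / 2 := by
        have := Real.exp_one_gt_d9
        rw [Real.exp_neg, ← one_div, div_le_div_iff₀ (Real.exp_pos _) (by norm_num)]
        linarith
      have h8 : Real.exp (-((C + 1) * (x.1 ^ δ + Real.log x.1))) ≤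
          Real.exp (-1) * Real.exp (-(C * x.1 ^ δ)) := by
        rw [← Real.exp_add]
        refine Real.exp_le_exp.2 ?_
        nlinarith [mul_nonneg hC0 hlog]
      exact h8.trans (mul_le_mul_of_nonneg_right h7 (Real.exp_pos _).le)
    linarith
  obtain ⟨⟨R₀, ε⟩, ⟨-, hε⟩, h⟩ :=
    ((atTop_basis (α := ℝ)).prod (Metric.nhds_basis_ball (x := ζ))).eventually_iff.1 hfin
  refine ⟨ε, hε, max 1 R₀, le_max_left _ _, C + 1, by positivity, fun R hR v hv => ?_⟩
  exact h (x := (R, v)) ⟨(le_max_right _ _).trans hR, hv⟩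

end Pool.Agent.K3h76.EX
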